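import Mathlib

set_option autoImplicit false

namespace Pool.Agent.Results.MP_8697f8_lc.Katetov

open Filter Set Cardinal

/-- A proper ideal of subsets of `ℕ` containing every finite set. -/
def IsIdeal (J : Set (Set ℕ)) : Prop := Set.univ ∉ J ∧ (∀ a : Set ℕ, a.Finite → a ∈ J) ∧
  (∀ a ∈ J, ∀ b ⊆ a, b ∈ J) ∧ ∀ a ∈ J, ∀ b ∈ J, a ∪ b ∈ J

/-- The disjoint sum, moved to `ℕ` by `(0, n) ↦ 2 * n`, `(1, n) ↦ 2 * n + 1`. -/
def osum (J₀ J₁ : Set (Set ℕ)) : Set (Set ℕ) :=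
  {a | {n | 2 * n ∈ a} ∈ J₀ ∧ {n | 2 * n + 1 ∈ a} ∈ J₁}

/-- The Katetov order. -/
def Kat (A J : Set (Set ℕ)) : Prop := ∃ f : ℕ → ℕ, ∀ a ∈ A, f ⁻¹' a ∈ J

/-- The Katetov number, with value `⊤` (that is `∞`) for the minimum over the empty set. -/
noncomputable def pK (I J : Set (Set ℕ)) : WithTop Cardinal.{0} :=
  sInf {κ | ∃ A ⊆ I, ¬ Kat A J ∧ κ = ((#A : Cardinal.{0}) : WithTop Cardinal.{0})}

theorem split (R : ℕ → Set ℕ) : ∃ a : Set ℕ, ∀ x, (R x).Infinite →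
    (∃ n ∈ R x, n ∈ a) ∧ ∃ n ∈ R x, n ∈ aᶜ := by
  have h : ∀ x b, ∃ c, b < c ∧ ((R x).Infinite → c ∈ R x) := fun x b => by
    by_cases h : (R x).Infinite
    · exact (h.exists_gt b).imp fun c hc => ⟨hc.2, fun _ => hc.1⟩
    · exact ⟨b + 1, b.lt_succ_self, fun e => absurd e h⟩
  choose g g1 g2 using h
  let e : ℕ → ℕ := fun k => k.rec 0 fun k b => g (k / 2) b
  have e1 : StrictMono e := strictMono_nat_of_lt_succ fun k => g1 _ _
  have e2 : ∀ k x, k / 2 = x → (R x).Infinite → e (k + 1) ∈ R x := fun k x h => h ▸ g2 _ _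
  refine ⟨range fun x => e (2 * x + 1), fun x hx => ⟨⟨_, e2 (2 * x) x (by omega) hx, x, rfl⟩,
    _, e2 (2 * x + 1) x (by omega) hx, fun ⟨y, hy⟩ => ?_⟩⟩
  have : 2 * y + 1 = 2 * x + 1 + 1 := e1.injective hy
  omega

theorem pull {p : ℕ → ℕ} (hp : Function.Surjective p) :
    IsIdeal {a | p '' a ∉ hyperfilter ℕ} :=
  ⟨fun h => h (by rw [image_univ, hp.range_eq]; exact univ_mem),
    fun _ ha => (ha.image p).notMem_hyperfilter,
    fun _ ha _ hb h => ha (mem_of_superset h (image_mono hb)), fun _ ha _ hb h => by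
      rw [image_union, Ultrafilter.union_mem_iff] at h
      exact h.elim ha hb⟩

theorem result : ∃ I J₀ J₁ : Set (Set ℕ), IsIdeal I ∧ IsIdeal J₀ ∧ IsIdeal J₁ ∧
    pK I (J₀ ∩ J₁) ≠ ⊤ ∧ pK I (osum J₀ J₁) = ⊤ := by
  refine ⟨{a | id '' a ∉ hyperfilter ℕ}, {a | (fun n => n.unpair.1) '' a ∉ hyperfilter ℕ},
    {a | (fun n => n.unpair.2) '' a ∉ hyperfilter ℕ}, pull Function.surjective_id,
    pull fun x => ⟨Nat.pair x 0, by simp⟩, pull fun x => ⟨Nat.pair 0 x, by simp⟩,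
    ne_top_of_le_ne_top WithTop.coe_ne_top (sInf_le ⟨_, Subset.rfl, fun ⟨f, hf⟩ => ?_, rfl⟩),
    sInf_eq_top.2 fun κ ⟨A, a1, a2, _⟩ => (a2 ⟨fun m => if m % 2 = 0 then (m / 2).unpair.1
      else (m / 2).unpair.2, fun a ha => ⟨fun h => a1 ha (mem_of_superset h ?_),
        fun h => a1 ha (mem_of_superset h ?_)⟩⟩).elim⟩
  · simp only [image_id] at hf
    obtain ⟨a, ha⟩ := split fun x => range fun y => f (Nat.pair x y)
    obtain ⟨b, b1, b2⟩ : ∃ b ∉ hyperfilter ℕ, ∀ x, (range fun y => f (Nat.pair x y)).Infinite →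
        ∃ n ∈ range fun y => f (Nat.pair x y), n ∈ b := by
      by_cases h : a ∈ hyperfilter ℕ
      · exact ⟨aᶜ, Ultrafilter.compl_notMem_iff.2 h, fun x hx => (ha x hx).2⟩
      · exact ⟨a, h, fun x hx => (ha x hx).1⟩
    obtain ⟨x, hx⟩ : ∃ x, (range fun y => f (Nat.pair x y)).Finite := by
      by_contra! h
      refine (hf b b1).1 (univ_mem' fun x => ?_)
      obtain ⟨_, ⟨y, rfl⟩, hy⟩ := b2 x (h x)
      exact ⟨_, hy, by simp⟩
    exact (hf _ hx.notMem_hyperfilter).2 (univ_mem' fun y => ⟨Nat.pair x y, ⟨y, rfl⟩, by simp⟩)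
  · rintro _ ⟨n, hn, rfl⟩
    simpa using hn
  · rintro _ ⟨n, hn, rfl⟩
    simpa [show (2 * n + 1) / 2 = n by omega] using hn

end Pool.Agent.Results.MP_8697f8_lc.Katetov
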