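import Mathlib

set_option autoImplicit false

namespace Pool.Agent.Results.MP_8697f8_lc.KatetovStar

open Filter Set Cardinal

/-- A proper ideal of subsets of `ℕ` containing every finite set. -/
def IsIdeal (J : Set (Set ℕ)) : Prop := Set.univ ∉ J ∧ (∀ a : Set ℕ, a.Finite → a ∈ J) ∧
  (∀ a ∈ J, ∀ b ⊆ a, b ∈ J) ∧ ∀ a ∈ J, ∀ b ∈ J, a ∪ b ∈ J

/-- The disjoint sum, moved to `ℕ` by `(0, n) ↦ 2 * n`, `(1, n) ↦ 2 * n + 1`. -/
def osum (J₀ J₁ : Set (Set ℕ)) : Set (Set ℕ) :=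
  {a | {n | 2 * n ∈ a} ∈ J₀ ∧ {n | 2 * n + 1 ∈ a} ∈ J₁}

/-- The Katetov order. -/
def Kat (A J : Set (Set ℕ)) : Prop := ∃ f : ℕ → ℕ, ∀ a ∈ A, f ⁻¹' a ∈ J

/-- `A` generates an ideal: no finite union of members of `A` is cofinite. -/
def Gen (A : Set (Set ℕ)) : Prop := ∀ F ⊆ A, F.Finite → ¬ (⋃₀ F)ᶜ.Finite

/-- The number `p_K(⋆, J)`, with value `⊤` for the minimum over the empty set. -/
noncomputable def pKs (J : Set (Set ℕ)) : WithTop Cardinal.{0} :=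
  sInf {κ | ∃ A, Gen A ∧ ¬ Kat A J ∧ κ = ((#A : Cardinal.{0}) : WithTop Cardinal.{0})}

/-- `S` is an `ω`-splitting family. -/
def OmSplit (S : Set (Set ℕ)) : Prop := ∀ R : ℕ → Set ℕ, (∀ x, (R x).Infinite) →
  ∃ s ∈ S, ∀ x, (R x ∩ s).Infinite ∧ (R x \ s).Infinite

theorem pull {K : Set (Set ℕ)} (hK : IsIdeal K) {p : ℕ → ℕ} (hp : Function.Surjective p) :
    IsIdeal {a | p '' a ∈ K} :=
  ⟨fun h => hK.1 (by rwa [mem_setOf_eq, image_univ, hp.range_eq] at h),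
    fun _ ha => hK.2.1 _ (ha.image p), fun _ ha _ hb => hK.2.2.1 _ ha _ (image_mono hb),
      fun _ ha _ hb => by rw [mem_setOf_eq, image_union]; exact hK.2.2.2 _ ha _ hb⟩

theorem above {T : Type} [Nonempty T] (ι : T → ℕ → Bool) (hι : Function.Injective ι)
    (A : T → Set (Set ℕ)) (hA : ∀ t, Gen (A t)) : ∃ K, IsIdeal K ∧ ∀ t, Kat (A t) K := by
  obtain ⟨e, he⟩ := exists_surjective_nat (Σ n : ℕ, (Fin n → Bool) → ℕ)
  let r : ∀ n : ℕ, T → Fin n → Bool := fun n t i => ι t i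
  let f : T → ℕ → ℕ := fun t k => (e k).2 (r _ t)
  refine ⟨{b | ∃ P : Set (T × Set ℕ), P.Finite ∧ (∀ p ∈ P, p.2 ∈ A p.1) ∧
    (b \ ⋃ p ∈ P, f p.1 ⁻¹' p.2).Finite}, ⟨fun ⟨P, a1, a2, a3⟩ => ?_,
      fun a ha => ⟨∅, finite_empty, by simp, ha.subset sdiff_subset⟩,
      fun a ⟨P, a1, a2, a3⟩ b hb => ⟨P, a1, a2, a3.subset (sdiff_subset_sdiff_left hb)⟩,
      fun a ⟨P, a1, a2, a3⟩ b ⟨Q, b1, b2, b3⟩ => ⟨P ∪ Q, a1.union b1,
        fun p hp => hp.elim (a2 p) (b2 p), (a3.union b3).subset fun k hk => ?_⟩⟩,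
    fun t => ⟨f t, fun a ha => ⟨{(t, a)}, finite_singleton _, by simpa using ha, by simp⟩⟩⟩
  · have b1 : ∀ t, ∃ v, ∀ p ∈ P, p.1 = t → v ∉ p.2 := fun t => by
      obtain ⟨v, hv⟩ := Set.Infinite.nonempty (hA t (Prod.snd '' {p ∈ P | p.1 = t})
        (by rintro _ ⟨p, ⟨c1, rfl⟩, rfl⟩; exact a2 p c1) ((a1.sep _).image _))
      exact ⟨v, fun p c1 c2 c3 => hv ⟨_, ⟨p, ⟨c1, c2⟩, rfl⟩, c3⟩⟩
    choose v hv using b1
    have b2 : ∀ᶠ n in atTop, InjOn (r n) (Prod.fst '' P) :=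
      (eventually_all_finite (a1.image _)).2 fun s _ =>
        (eventually_all_finite (a1.image _)).2 fun t _ => by
          by_cases h : s = t
          · exact .of_forall fun _ _ => h
          obtain ⟨i, hi⟩ := Function.ne_iff.1 (hι.ne h)
          exact (eventually_gt_atTop i).mono fun n hn c => absurd (congrFun c ⟨i, hn⟩) hi
    have b3 := Nat.frequently_atTop_iff_infinite.1 b2.frequently
    refine b3 ((a3.image fun k => (e k).1).subset fun n hn => ?_)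
    obtain ⟨k, hk⟩ := he ⟨n, fun σ => v (Function.invFunOn (r n) (Prod.fst '' P) σ)⟩
    refine ⟨k, ⟨trivial, fun c => ?_⟩, by simp only [hk]⟩
    obtain ⟨p, c1, c2⟩ := mem_iUnion₂.1 c
    have c3 : f p.1 k = v p.1 := by
      change (fun d : Σ n : ℕ, (Fin n → Bool) → ℕ => d.2 (r d.1 p.1)) (e k) = _
      rw [hk]
      exact congrArg v (hn.leftInvOn_invFunOn ⟨p, c1, rfl⟩)
    exact hv _ p c1 rfl (c3 ▸ c2)
  · rw [biUnion_union] at hk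
    exact hk.1.imp (fun c => ⟨c, fun d => hk.2 (Or.inl d)⟩) fun c => ⟨c, fun d => hk.2 (Or.inr d)⟩

theorem result (S : Set (Set ℕ)) (hS : OmSplit S) (h2 : 2 ^ #S ≤ continuum) :
    ∃ J₀ J₁ : Set (Set ℕ), IsIdeal J₀ ∧ IsIdeal J₁ ∧ pKs (J₀ ∩ J₁) < pKs (osum J₀ J₁) := by
  let κ : Cardinal.{0} := #S + #S + ℵ₀
  have k1 : #{A : Set (Set ℕ) // Gen A ∧ #A ≤ κ} ≤ #(ℕ → Bool) := by
    refine ((mk_subtype_mono fun A h => h.2).trans (mk_bounded_set_le_of_infinite _ κ)).trans ?_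
    rw [mk_set, mk_nat, ← power_mul, mul_eq_right le_add_self le_add_self aleph0_ne_zero,
      power_add, power_add, two_power_aleph0]
    simpa using mul_le_mul' (mul_le_mul' h2 h2) (le_refl continuum)
  obtain ⟨ι⟩ := k1
  have : Nonempty {A : Set (Set ℕ) // Gen A ∧ #A ≤ κ} := ⟨⟨∅, fun F h _ => by
    rw [subset_empty_iff.1 h]; simpa using infinite_univ, by simp⟩⟩
  obtain ⟨K, hK, hT⟩ := above ι ι.injective Subtype.val fun A => A.2.1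
  let A : Set (Set ℕ) := {a | a ∉ hyperfilter ℕ} ∩ (S ∪ compl '' S ∪ {a | a.Finite})
  have k2 : #A ≤ κ := (mk_le_mk_of_subset inter_subset_right).trans ((mk_union_le _ _).trans
    (add_le_add ((mk_union_le _ _).trans (add_le_add le_rfl mk_image_le))
      (le_aleph0_iff_set_countable.2 Set.Countable.setOf_finite)))
  refine ⟨{a | (fun n => n.unpair.1) '' a ∈ K}, {a | (fun n => n.unpair.2) '' a ∈ K},
    pull hK fun x => ⟨Nat.pair x 0, by simp⟩, pull hK fun x => ⟨Nat.pair 0 x, by simp⟩,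
    lt_of_le_of_lt (sInf_le ⟨A, fun F a1 a2 a3 => ?_, fun ⟨f, hf⟩ => ?_, rfl⟩)
      (lt_of_lt_of_le (WithTop.coe_lt_coe.2 (k2.trans_lt (Order.lt_succ κ))) (le_sInf ?_))⟩
  · obtain ⟨a, a4, a5⟩ := (Ultrafilter.finite_sUnion_mem_iff a2).1
      (Ultrafilter.compl_notMem_iff.1 a3.notMem_hyperfilter)
    exact (a1 a4).1 a5
  · by_cases h : ∀ x, (range fun y => f (Nat.pair x y)).Infinite
    · obtain ⟨s, s1, s2⟩ := hS _ h
      obtain ⟨b, b1, b2⟩ : ∃ b ∈ A, ∀ x, ∃ n ∈ range fun y => f (Nat.pair x y), n ∈ b := by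
        by_cases h : s ∈ hyperfilter ℕ
        · exact ⟨sᶜ, ⟨Ultrafilter.compl_notMem_iff.2 h, Or.inl (Or.inr ⟨s, s1, rfl⟩)⟩,
            fun x => (s2 x).2.nonempty⟩
        · exact ⟨s, ⟨h, Or.inl (Or.inl s1)⟩, fun x => (s2 x).1.nonempty⟩
      refine hK.1 (hK.2.2.1 _ (hf b b1).1 _ fun x _ => ?_)
      obtain ⟨_, ⟨y, rfl⟩, hy⟩ := b2 x
      exact ⟨_, hy, by simp⟩
    · obtain ⟨x, hx⟩ := not_forall.1 h
      exact hK.1 (hK.2.2.1 _ (hf _ ⟨(not_infinite.1 hx).notMem_hyperfilter,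
        Or.inr (not_infinite.1 hx)⟩).2 _ fun y _ => ⟨Nat.pair x y, ⟨y, rfl⟩, by simp⟩)
  · rintro _ ⟨B, b1, b2, rfl⟩
    refine WithTop.coe_le_coe.2 (Order.succ_le_of_lt (not_le.1 fun b3 => b2 ?_))
    obtain ⟨f, hf⟩ := hT ⟨B, b1, b3⟩
    refine ⟨fun m => f (if m % 2 = 0 then (m / 2).unpair.1 else (m / 2).unpair.2),
      fun a ha => ⟨hK.2.2.1 _ (hf a ha) _ ?_, hK.2.2.1 _ (hf a ha) _ ?_⟩⟩
    · rintro _ ⟨n, hn, rfl⟩
      simpa using hn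
    · rintro _ ⟨n, hn, rfl⟩
      simpa [show (2 * n + 1) / 2 = n by omega] using hn

end Pool.Agent.Results.MP_8697f8_lc.KatetovStar
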